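import Pool.Agent.helper75.S6D.Spec

/-! # Project s6 (MP_2b41e9_nt), row LOC -/

set_option autoImplicit false

open Polynomial Finset

noncomputable section

namespace Pool.Agent.S6D

open Pool.Agent.PSA

private theorem LOC_real (η A b c : ℝ) (hη : 0 < η) (hA1 : 9 < A * η) (hA2 : 10 ≤ A)
    (hW : InW η (b / A) (c / A)) : ∃ u v L : ℝ, (A = u + v + L ∧ b = -(u * v + L * (u + v)) ∧ c = u * v * L + 2 * A) ∧
      |u| < 2 ∧ |v| < 2 ∧ 2 < L := by
  obtain ⟨hx, hy1, hy2⟩ := hW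
  have hA0 : 0 < A := by linarith
  obtain ⟨x, hxd⟩ : ∃ x, x = b / A := ⟨_, rfl⟩
  obtain ⟨y, hyd⟩ : ∃ y, y = c / A := ⟨_, rfl⟩
  rw [← hxd] at hx hy1 hy2
  rw [← hyd] at hy1 hy2
  have hb : b = x * A := by rw [hxd]; field_simp
  have hc : c = y * A := by rw [hyd]; field_simp
  have hx' := abs_le.1 hx
  have hax := le_abs_self x
  have hanx := neg_abs_le x
  let T : ℝ → ℝ := fun t => t ^ 3 - A * t ^ 2 - b * t - (c - 2 * A)
  have hTc : Continuous T := by fun_prop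
  have hTe : ∀ t, T t = t ^ 3 - A * (t ^ 2 + x * t + y - 2) := by
    intro t
    show t ^ 3 - A * t ^ 2 - b * t - (c - 2 * A) = _
    rw [hb, hc]; ring
  have t2 : T 2 < 0 := by
    rw [hTe]
    have : A * η ≤ A * (2 ^ 2 + x * 2 + y - 2) := mul_le_mul_of_nonneg_left (by linarith) hA0.le
    linarith
  have tm2 : T (-2) < 0 := by
    rw [hTe]
    have : A * η ≤ A * ((-2) ^ 2 + x * (-2) + y - 2) := mul_le_mul_of_nonneg_left (by linarith) hA0.le
    linarith
  have tm : 0 < T (-x / 2) := by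
    rw [hTe]
    have h1 : A * ((-x / 2) ^ 2 + x * (-x / 2) + y - 2) ≤ A * (-η) :=
      mul_le_mul_of_nonneg_left (by nlinarith) hA0.le
    have h2 : -8 ≤ (-x / 2) ^ 3 := by
      have h3 : (-x / 2) ^ 3 = -(x ^ 3 / 8) := by ring
      rw [h3]
      have h4 : x ^ 3 ≤ 64 := by
        have h5 : x ^ 3 ≤ |x| ^ 3 := by
          rw [← abs_pow]; exact le_abs_self _
        have h6 : |x| ^ 3 ≤ 4 ^ 3 := pow_le_pow_left₀ (abs_nonneg _) hx 3
        linarith
      linarith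
    linarith
  obtain ⟨u, ⟨hu1, hu2⟩, hu0⟩ : ∃ u ∈ Set.Icc (-2 : ℝ) (-x / 2), T u = 0 := by
    have := intermediate_value_Icc (show (-2 : ℝ) ≤ -x / 2 by linarith) hTc.continuousOn
    exact this ⟨tm2.le, tm.le⟩
  obtain ⟨v, ⟨hv1, hv2⟩, hv0⟩ : ∃ v ∈ Set.Icc (-x / 2 : ℝ) 2, T v = 0 := by
    have := intermediate_value_Icc' (show (-x / 2 : ℝ) ≤ 2 by linarith) hTc.continuousOn
    exact this ⟨t2.le, tm.le⟩
  have hu3 : -2 < u := lt_of_le_of_ne hu1 (by rintro h; rw [← h] at hu0; linarith)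
  have hu4 : u < -x / 2 := lt_of_le_of_ne hu2 (by rintro h; rw [h] at hu0; linarith)
  have hv3 : -x / 2 < v := lt_of_le_of_ne hv1 (by rintro h; rw [← h] at hv0; linarith)
  have hv4 : v < 2 := lt_of_le_of_ne hv2 (by rintro h; rw [h] at hv0; linarith)
  have huv : u - v ≠ 0 := by
    intro h
    linarith
  have hTu : u ^ 3 - A * u ^ 2 - b * u - (c - 2 * A) = 0 := hu0
  have hTv : v ^ 3 - A * v ^ 2 - b * v - (c - 2 * A) = 0 := hv0
  have hbq : u ^ 2 + u * v + v ^ 2 - A * (u + v) - b = 0 := by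
    have h1 : (u - v) * (u ^ 2 + u * v + v ^ 2 - A * (u + v) - b) = 0 := by linear_combination hTu - hTv
    exact (mul_eq_zero.1 h1).resolve_left huv
  refine ⟨u, v, A - u - v, ⟨by ring, by linear_combination -hbq, by linear_combination -hTu + u * hbq⟩, ?_, ?_, ?_⟩
  · rw [abs_lt]; constructor <;> linarith
  · rw [abs_lt]; constructor <;> linarith
  · linarith

/-- **LOC** -/
theorem LOC : LOC_stmt := by
  intro η hη
  refine ⟨10 / η + 10, fun A b c hA hW => ?_⟩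
  have h1 : 0 < 10 / η := by positivity
  have h2 : 9 < (A : ℝ) * η := by
    have h3 : 10 / η ≤ (A : ℝ) := by linarith
    rw [div_le_iff₀ hη] at h3
    linarith
  exact LOC_real η A b c hη h2 (by linarith) hW

end Pool.Agent.S6D
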