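import Pool.Agent.helper75.S6D.Spec

/-! # Project s6 (MP_2b41e9_nt), row STB -/

set_option autoImplicit false

open Polynomial Finset

noncomputable section

namespace Pool.Agent.S6D

open Pool.Agent.PSA

private theorem STB_bd (x y : ℝ) (hx : |x| ≤ 4) (hy : |y| ≤ 6) (n : ℕ) :
    |((cd x y n).1 : ℝ)| ≤ 17 ^ n ∧ |((cd x y n).2.1 : ℝ)| ≤ 17 ^ n ∧ |((cd x y n).2.2.1 : ℝ)| ≤ 17 ^ n ∧
      |((cd x y n).2.2.2 : ℝ)| ≤ 17 ^ n := by
  induction n with
  | zero =>
    simp [cd, ini]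
  | succ n ih =>
    obtain ⟨h1, h2, h3, h4⟩ := ih
    have hM : (1 : ℝ) ≤ 17 ^ n := one_le_pow₀ (by norm_num)
    have hle : (17 : ℝ) ^ n ≤ 17 ^ (n + 1) := by
      rw [pow_succ]; linarith
    have e : cd x y (n + 1) = nx x y (cd x y n) := rfl
    rw [e]
    unfold nx
    refine ⟨?_, h1.trans hle, h2.trans hle, h3.trans hle⟩
    simp only
    set a := ((cd x y n).1 : ℝ)
    set b := ((cd x y n).2.1 : ℝ)
    set c := ((cd x y n).2.2.1 : ℝ)
    set d := ((cd x y n).2.2.2 : ℝ)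
    set M : ℝ := 17 ^ n with hMd
    have hz : |x * (a + c) + y * b + d| ≤ 15 * M := by
      have k1 : |x * (a + c)| ≤ 4 * (2 * M) := by
        rw [abs_mul]
        exact mul_le_mul hx ((abs_add_le _ _).trans (by linarith)) (abs_nonneg _) (by norm_num)
      have k2 : |y * b| ≤ 6 * M := by
        rw [abs_mul]
        exact mul_le_mul hy h2 (abs_nonneg _) (by norm_num)
      calc |x * (a + c) + y * b + d| ≤ |x * (a + c) + y * b| + |d| := abs_add_le _ _
        _ ≤ |x * (a + c)| + |y * b| + |d| := by linarith [abs_add_le (x * (a + c)) (y * b)]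
        _ ≤ 15 * M := by linarith
    have hz' := abs_le.1 hz
    have l1 := Int.le_ceil (x * (a + c) + y * b + d)
    have l2 := Int.ceil_lt_add_one (x * (a + c) + y * b + d)
    push_cast
    rw [abs_le, pow_succ, ← hMd]
    constructor <;> linarith

/-- **STB** -/
theorem STB : STB_stmt := by
  intro η T hη hη1
  refine ⟨144 * 17 ^ T / η, fun A hA x y q1 q2 hx hy hq1 hq2 hC n hn => ?_⟩
  have hT : (0 : ℝ) < 17 ^ T := by positivity
  have hA0 : 0 < A := lt_of_lt_of_le (by positivity) hA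
  obtain ⟨-, -, -, hG⟩ := hC
  have hg := hG n hn
  obtain ⟨h1, h2, h3, h4⟩ := STB_bd x y hx hy n
  have hnT : (17 : ℝ) ^ n ≤ 17 ^ T := pow_le_pow_right₀ (by norm_num) hn.le
  show η / 2 ≤ sv q1 q2 (cd x y n) (cd x y (n + 1)).1 ∧ sv q1 q2 (cd x y n) (cd x y (n + 1)).1 ≤ 1
  rcases hg with ⟨g1, g2, g3⟩ | ⟨g1, g2⟩
  · have e1 : (((cd x y n).1 : ℝ)) + ((cd x y n).2.2.1 : ℝ) = 0 := by exact_mod_cast g1
    have e2 : ((cd x y n).2.1 : ℝ) = 0 := by exact_mod_cast g2
    have e3 : ((cd x y (n + 1)).1 : ℝ) + ((cd x y n).2.2.2 : ℝ) = 1 := by exact_mod_cast g3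
    have e4 : sv q1 q2 (cd x y n) (cd x y (n + 1)).1 = 1 := by
      unfold sv
      rw [e1, e2]
      linarith
    rw [e4]
    constructor <;> linarith
  · have e1 : sv q1 q2 (cd x y n) (cd x y (n + 1)).1 - sv x y (cd x y n) (cd x y (n + 1)).1 =
        (q1 - x) * (((cd x y n).1 : ℝ) + ((cd x y n).2.2.1 : ℝ)) + (q2 - y) * ((cd x y n).2.1 : ℝ) := by
      unfold sv; ring
    have e2 : |sv q1 q2 (cd x y n) (cd x y (n + 1)).1 - sv x y (cd x y n) (cd x y (n + 1)).1| ≤ η / 2 := by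
      rw [e1]
      have k1 : |(q1 - x) * (((cd x y n).1 : ℝ) + ((cd x y n).2.2.1 : ℝ))| ≤ 24 / A * (2 * 17 ^ T) := by
        rw [abs_mul, abs_sub_comm]
        exact mul_le_mul hq1 ((abs_add_le _ _).trans (by linarith)) (abs_nonneg _) (by positivity)
      have k2 : |(q2 - y) * ((cd x y n).2.1 : ℝ)| ≤ 24 / A * 17 ^ T := by
        rw [abs_mul, abs_sub_comm]
        exact mul_le_mul hq2 (h2.trans hnT) (abs_nonneg _) (by positivity)
      have k3 : 24 / A * (2 * 17 ^ T) + 24 / A * 17 ^ T ≤ η / 2 := by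
        have : 24 / A * (2 * 17 ^ T) + 24 / A * 17 ^ T = 72 * 17 ^ T / A := by ring
        rw [this, div_le_iff₀ hA0]
        rw [div_le_iff₀ hη] at hA
        linarith
      exact (abs_add_le _ _).trans ((add_le_add k1 k2).trans k3)
    have e3 := abs_le.1 e2
    constructor <;> linarith

end Pool.Agent.S6D
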